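import Pool.Agent.H32.NS
import Pool.Agent.H32.FE

open Set Filter

namespace Pool.Agent.Results.MP_2734af_lc.NoMultiple

open Pool.Agent.H32.NS Pool.Agent.H32.FE

lemma q_ne (a : ℕ) : q a ≠ 1 := fun h => (qp a).ne_one (congrArg PNat.val h)

lemma q_inj {a b : ℕ} (h : q a = q b) : a = b := by rw [← cq a, h, cq]

lemma fac {n i j : ℕ} {c : ℕ+} (h : α n * c = α i * q (2 * j + 1)) : n = i ∧ c = q (2 * j + 1) := by
  have hc : c ≠ 1 := by
    rintro rfl
    have := congrArg (fun m : ℕ+ => (m : ℕ).primeFactorsList.length) h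
    simp only [len, α, Nat.primeFactorsList_prime (qp _), List.length_singleton] at this
    simp at this
  rcases two (q_ne _) hc h with ⟨a, b⟩ | ⟨a, -⟩
  · exact ⟨by have := q_inj a; omega, b⟩
  · have := q_inj a
    omega

theorem result : ∀ T : Type, ∃ (I : Type) (V : Ultrafilter I), Enl V T ∧ Enl V ℕ+ ∧
    ∃ F G : Ultrafilter ℕ+, TDvd F G ∧ ∃ x ∈ monad V F, ¬ ∃ y ∈ monad V G, ∃ z, y = x * z := by
  intro T
  obtain ⟨I, W, h1, h2⟩ := exists_enl T (hyperfilter ℕ)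
  let G : U := (hyperfilter ℕ).bind fun j => (hyperfilter ℕ).map fun i => α i * q (2 * j + 1)
  refine ⟨_, _, h1, h2, F0, G, fun A hA => ev (Eventually.of_forall fun j =>
    mem_of_superset (f := (hyperfilter ℕ : Filter ℕ)) hA fun i hi => ⟨_, hi, dvd_mul_right _ _⟩),
    (fun t => α t.1 : ℕ × I → ℕ+), fun A hA => mem_of_superset (f := (hyperfilter ℕ : Filter ℕ)) hA
      fun n hn => univ_mem' (f := (W : Filter I)) fun _ => hn, ?_⟩
  rintro ⟨_, hy, z, rfl⟩
  induction z using Germ.inductionOn with | h z => ?_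
  have h3 : {n | {t | ∃ i j, j < i ∧ α n * z (n, t) = α i * q (2 * j + 1)} ∈ W} ∈ hyperfilter ℕ :=
    hy {m | ∃ i j, j < i ∧ m = α i * q (2 * j + 1)} (ev (Eventually.of_forall fun j =>
      ev ((eventually_gt_atTop j).mono fun i hi => ⟨i, j, hi, rfl⟩)))
  have : ∀ n : ℕ, ∃ j, {t | ∃ i j, j < i ∧ α n * z (n, t) = α i * q (2 * j + 1)} ∈ W →
      {t | z (n, t) = q (2 * j + 1)} ∈ W := fun n => by
    by_cases h : {t | ∃ i j, j < i ∧ α n * z (n, t) = α i * q (2 * j + 1)} ∈ W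
    · obtain ⟨_, ⟨j, -, rfl⟩, ha⟩ := Ultrafilter.eq_pure_of_finite_mem (f := W.map fun t => z (n, t))
        ((finite_Iio n).image fun j => q (2 * j + 1)) (mem_of_superset (f := (W : Filter I)) h
          fun t ⟨i, j, a, b⟩ => ⟨j, (fac b).1 ▸ a, (fac b).2.symm⟩)
      exact ⟨j, fun _ => show {q (2 * j + 1)} ∈ W.map fun t => z (n, t) from ha ▸ rfl⟩
    · exact ⟨0, fun k => (h k).elim⟩
  choose f hf using this
  have h5 : {j | {i | f i ≠ j} ∈ hyperfilter ℕ} ∈ hyperfilter ℕ := by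
    refine mem_of_superset (Set.Subsingleton.finite (s := {j | {i | f i = j} ∈ hyperfilter ℕ})
      fun a ha b hb => ?_).compl_mem_hyperfilter fun j hj => Ultrafilter.compl_mem_iff_notMem.2 hj
    obtain ⟨i, i1, i2⟩ := Ultrafilter.nonempty_of_mem (inter_mem ha hb)
    exact i1.symm.trans i2
  have h4 : {n | {t | ∃ i j, f i ≠ j ∧ α n * z (n, t) = α i * q (2 * j + 1)} ∈ W} ∈ hyperfilter ℕ :=
    hy {m | ∃ i j, f i ≠ j ∧ m = α i * q (2 * j + 1)} (mem_of_superset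
      (f := (hyperfilter ℕ : Filter ℕ)) h5 fun j hj =>
        mem_of_superset (f := (hyperfilter ℕ : Filter ℕ)) hj fun i hi => ⟨i, j, hi, rfl⟩)
  obtain ⟨n, n1, n2⟩ := Ultrafilter.nonempty_of_mem (inter_mem h3 h4)
  obtain ⟨t, t1, i, j, t2, t3⟩ := Ultrafilter.nonempty_of_mem (inter_mem (hf n n1) n2)
  obtain ⟨rfl, e⟩ := fac t3
  have := q_inj (t1.symm.trans e)
  omega

end Pool.Agent.Results.MP_2734af_lc.NoMultiple
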